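import Pool.Agent.Q207.AJ.Main

/-!
# Translations in irreducible monodromy groups
-/

set_option autoImplicit false

open Matrix Finset PowerSeries Filter

namespace Q207.AJ

variable {ι κ : Type} {r : ℕ} [Fintype ι] {h : Fin r → ℚ⟦X⟧} {P : ι → κ → MvPolynomial (Option (Fin r)) ℂ}

theorem rl_sub (g : Matrix ι ι ℂ) (R : MvPolynomial (ι × κ) (Polynomial ℂ)) :
    ∃ R' : MvPolynomial (ι × κ) (Polynomial ℂ), ∀ (s : ℝ) (Z : Matrix ι κ ℂ), rl R' s Z = rl R s (g * Z) := by
  refine ⟨MvPolynomial.eval₂ MvPolynomial.C (fun v => ∑ l, MvPolynomial.C (Polynomial.C (g v.1 l)) *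
    MvPolynomial.X (l, v.2)) R, fun s Z => ?_⟩
  unfold rl
  have h1 := MvPolynomial.hom_eval₂ R MvPolynomial.C (MvPolynomial.eval₂Hom (Polynomial.evalRingHom (1 / (s : ℂ)))
    (fun v : ι × κ => Z v.1 v.2)) (fun v => ∑ l, MvPolynomial.C (Polynomial.C (g v.1 l)) *
    MvPolynomial.X (l, v.2))
  refine Eq.trans h1 ?_
  congr 1
  · refine RingHom.ext fun p => ?_
    simp
  · funext v
    rw [map_sum, Matrix.mul_apply]
    refine Finset.sum_congr rfl fun l _ => ?_
    simp

theorem Pr_mul {g g' : Matrix ι ι ℂ} (hg : Pr h P g) (hg' : Pr h P g') : Pr h P (g * g') := by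
  intro R hR
  obtain ⟨R', hR'⟩ := rl_sub g R
  have h1 := hg R hR
  have h2 := hg' R' (by
    filter_upwards [h1] with s hs
    rw [hR']
    exact hs)
  filter_upwards [h2] with s hs
  rw [hR', ← Matrix.mul_assoc] at hs
  exact hs

theorem Pr_one [DecidableEq ι] : Pr h P (1 : Matrix ι ι ℂ) := by
  intro R hR
  filter_upwards [hR] with s hs
  rw [Matrix.one_mul]
  exact hs

/-- interpolation -/
theorem Pr_interp [DecidableEq ι] {N : Matrix ι ι ℂ} (hm : ∀ m : ℕ, Pr h P (1 + (m : ℂ) • N)) (t : ℂ) : Pr h P (1 + t • N) := by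
  classical
  intro R hR
  let κ' : ℂ →+* MvPolynomial (ι × κ) (Polynomial ℂ) := MvPolynomial.C.comp Polynomial.C
  let E : ι → ι → Polynomial ℂ := fun a b => Polynomial.C ((1 : Matrix ι ι ℂ) a b) + Polynomial.C (N a b) * Polynomial.X
  have hE : ∀ (u : ℂ) a b, (1 + u • N) a b = (E a b).eval u := by
    intro u a b
    simp only [E, Polynomial.eval_add, Polynomial.eval_mul, Polynomial.eval_C, Polynomial.eval_X, Matrix.add_apply, Matrix.smul_apply,
      smul_eq_mul]
    ring
  let Rt : Polynomial (MvPolynomial (ι × κ) (Polynomial ℂ)) :=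
    MvPolynomial.eval₂ (Polynomial.C.comp MvPolynomial.C) (fun v => ∑ l, (E v.1 l).map κ' *
      Polynomial.C (MvPolynomial.X (l, v.2))) R
  let ψ : ℝ → Matrix ι κ ℂ → (MvPolynomial (ι × κ) (Polynomial ℂ) →+* ℂ) := fun s Z =>
    MvPolynomial.eval₂Hom (Polynomial.evalRingHom (1 / (s : ℂ))) (fun v : ι × κ => Z v.1 v.2)
  have hκ : ∀ s Z, (ψ s Z).comp κ' = RingHom.id ℂ := by
    intro s Z
    refine RingHom.ext fun a => ?_
    show MvPolynomial.eval₂ (Polynomial.evalRingHom (1 / (s : ℂ))) _ (MvPolynomial.C (Polynomial.C a)) = a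
    rw [MvPolynomial.eval₂_C, Polynomial.coe_evalRingHom, Polynomial.eval_C]
  have hev : ∀ (s : ℝ) (Z : Matrix ι κ ℂ) (u : ℂ),
      (Rt.map (ψ s Z)).eval u = rl R s ((1 + u • N) * Z) := by
    intro s Z u
    rw [Polynomial.eval_map]
    show Polynomial.eval₂RingHom (ψ s Z) u Rt = _
    have h1 := MvPolynomial.hom_eval₂ R (Polynomial.C.comp MvPolynomial.C) (Polynomial.eval₂RingHom (ψ s Z) u)
      (fun v => ∑ l, (E v.1 l).map κ' * Polynomial.C (MvPolynomial.X (l, v.2)))
    refine Eq.trans h1 ?_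
    unfold rl
    congr 1
    · refine RingHom.ext fun p => ?_
      show Polynomial.eval₂ (ψ s Z) u (Polynomial.C (MvPolynomial.C p)) = _
      rw [Polynomial.eval₂_C]
      exact MvPolynomial.eval₂_C ..
    · funext v
      rw [map_sum, Matrix.mul_apply]
      refine Finset.sum_congr rfl fun l _ => ?_
      rw [map_mul]
      congr 1
      · show Polynomial.eval₂ (ψ s Z) u ((E v.1 l).map κ') = _
        rw [Polynomial.eval₂_map, hκ, hE]
        rfl
      · show Polynomial.eval₂ (ψ s Z) u (Polynomial.C (MvPolynomial.X (l, v.2))) = _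
        rw [Polynomial.eval₂_C]
        exact MvPolynomial.eval₂_X ..
  have h1 : ∀ᶠ s : ℝ in atTop, ∀ m ∈ Finset.range (Rt.natDegree + 1), rl R s ((1 + (m : ℂ) • N) * pm h P s) = 0 := by
    rw [Filter.eventually_all_finset]
    intro m _
    exact hm m R hR
  filter_upwards [h1] with s hs
  have h2 : Rt.map (ψ s (pm h P s)) = 0 := by
    refine Polynomial.eq_zero_of_natDegree_lt_card_of_eval_eq_zero' _ ((Finset.range (Rt.natDegree + 1)).image
      (fun m : ℕ => (m : ℂ))) ?_ ?_
    · intro z hz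
      obtain ⟨m, hm', rfl⟩ := Finset.mem_image.1 hz
      rw [hev]
      exact hs m hm'
    · rw [Finset.card_image_of_injective _ Nat.cast_injective, Finset.card_range]
      exact Nat.lt_succ_of_le Polynomial.natDegree_map_le
  rw [← hev, h2, Polynomial.eval_zero]

section mono
variable {J η : Type} [Fintype J] [Fintype η] [DecidableEq J] [DecidableEq η]
  {P : J ⊕ η → κ → MvPolynomial (Option (Fin r)) ℂ}

/-- complexification -/
noncomputable def cm {a b : Type} (g : Matrix a b ℚ) : Matrix a b ℂ := g.map fun q : ℚ => (q : ℂ)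

theorem cm_mul {a b c : Type} [Fintype b] (g : Matrix a b ℚ) (g' : Matrix b c ℚ) : cm (g * g') = cm g * cm g' := by
  ext i j
  simp only [cm, Matrix.map_apply, Matrix.mul_apply]
  push_cast
  rfl

/-- the translation -/
def Tw (w : Matrix J η ℚ) : Matrix (J ⊕ η) (J ⊕ η) ℚ := Matrix.fromBlocks 1 w 0 1

/-- symmetries which fix the chains modulo the homology -/
def Mo (h : Fin r → ℚ⟦X⟧) (P : J ⊕ η → κ → MvPolynomial (Option (Fin r)) ℂ) (v : Matrix J η ℚ) (x : Matrix η η ℚ) : Prop :=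
  ∃ x' : Matrix η η ℚ, x * x' = 1 ∧ Pr h P (cm (Matrix.fromBlocks 1 v 0 x)) ∧
    Pr h P (cm (Matrix.fromBlocks 1 (-(v * x')) 0 x'))

theorem Tw_add (w w' : Matrix J η ℚ) : (Tw w : Matrix (J ⊕ η) (J ⊕ η) ℚ) * Tw w' = Tw (w' + w) := by
  unfold Tw
  rw [Matrix.fromBlocks_multiply]
  simp

theorem W_add {w w' : Matrix J η ℚ} (hw : Pr h P (cm (Tw w))) (hw' : Pr h P (cm (Tw w'))) : Pr h P (cm (Tw (w + w'))) := by
  rw [← Tw_add, cm_mul]
  exact Pr_mul hw' hw

theorem W_smul {w : Matrix J η ℚ} (hw : Pr h P (cm (Tw w))) (q : ℚ) : Pr h P (cm (Tw (q • w))) := by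
  have h0 : ∀ q : ℚ, cm (Tw (q • w)) = 1 + (q : ℂ) • (cm (Matrix.fromBlocks 0 w 0 0) : Matrix (J ⊕ η) (J ⊕ η) ℂ) := by
    intro q
    ext a b
    rcases a with a | a <;> rcases b with b | b
    · simp only [cm, Tw, Matrix.map_apply, Matrix.fromBlocks_apply₁₁, Matrix.add_apply, Matrix.smul_apply, Matrix.zero_apply,
        Matrix.one_apply, Sum.inl.injEq]
      split_ifs <;> simp
    · simp [cm, Tw]
    · simp [cm, Tw]
    · simp only [cm, Tw, Matrix.map_apply, Matrix.fromBlocks_apply₂₂, Matrix.add_apply, Matrix.smul_apply, Matrix.zero_apply,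
        Matrix.one_apply, Sum.inr.injEq]
      split_ifs <;> simp
  rw [h0 q]
  refine Pr_interp (fun m => ?_) _
  have h1 : ∀ m : ℕ, Pr h P (cm (Tw ((m : ℚ) • w))) := by
    intro m
    induction m with
    | zero =>
      have h2 := Pr_one (h := h) (P := P)
      have h3 : cm (Tw (((0 : ℕ) : ℚ) • w)) = (1 : Matrix (J ⊕ η) (J ⊕ η) ℂ) := by
        rw [h0]
        simp
      rw [h3]
      exact h2
    | succ m ih =>
      have h2 : ((m + 1 : ℕ) : ℚ) • w = (m : ℚ) • w + w := by
        push_cast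
        rw [add_smul, one_smul]
      rw [h2]
      exact W_add ih hw
  have h2 := h1 m
  rw [h0] at h2
  push_cast at h2
  exact h2

/-- the space of the translations -/
def Wsub (h : Fin r → ℚ⟦X⟧) (P : J ⊕ η → κ → MvPolynomial (Option (Fin r)) ℂ) : Submodule ℚ (Matrix J η ℚ) where
  carrier := {w | Pr h P (cm (Tw w))}
  add_mem' := fun {_ _} => W_add
  zero_mem' := by
    show Pr h P (cm (Tw 0))
    have h3 : cm (Tw 0) = (1 : Matrix (J ⊕ η) (J ⊕ η) ℂ) := by
      unfold Tw
      rw [Matrix.fromBlocks_one]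
      ext a b
      simp only [cm, Matrix.map_apply, Matrix.one_apply]
      split_ifs <;> simp
    rw [h3]
    exact Pr_one
  smul_mem' := fun q _ hw => W_smul hw q

theorem mem_Wsub {w : Matrix J η ℚ} : w ∈ Wsub h P ↔ Pr h P (cm (Tw w)) := Iff.rfl

theorem W_mul {w v : Matrix J η ℚ} {x : Matrix η η ℚ} (hx : Mo h P v x) (hw : w ∈ Wsub h P) : w * x ∈ Wsub h P := by
  obtain ⟨x', hxx', h1, h2⟩ := hx
  have h3 : x' * x = 1 := mul_eq_one_comm.1 hxx'
  have h4 : Matrix.fromBlocks 1 (-(v * x')) 0 x' * Tw w * Matrix.fromBlocks 1 v 0 x = Tw (w * x) := by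
    unfold Tw
    rw [Matrix.fromBlocks_multiply, Matrix.fromBlocks_multiply]
    simp only [Matrix.one_mul, Matrix.mul_one, Matrix.mul_zero, Matrix.zero_mul, add_zero, zero_add, Matrix.add_mul, Matrix.neg_mul,
      Matrix.mul_assoc, h3]
    congr 1
    abel
  rw [mem_Wsub, ← h4, cm_mul, cm_mul]
  exact Pr_mul (Pr_mul h2 hw) h1

theorem W_comm {w₀ v : Matrix J η ℚ} {x : Matrix η η ℚ} (h0 : Pr h P (cm (Matrix.fromBlocks 1 w₀ 0 (-1)))) (hx : Mo h P v x) :
    w₀ - (2 : ℚ) • v - w₀ * x ∈ Wsub h P := by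
  have hx' := hx
  obtain ⟨x', hxx', h1, h2⟩ := hx
  have h3 : x' * x = 1 := mul_eq_one_comm.1 hxx'
  have h4 : Matrix.fromBlocks 1 w₀ 0 (-1) * Matrix.fromBlocks 1 v 0 x * Matrix.fromBlocks 1 w₀ 0 (-1) *
      Matrix.fromBlocks 1 (-(v * x')) 0 x' = Tw ((w₀ - (2 : ℚ) • v) * x' - w₀) := by
    unfold Tw
    rw [Matrix.fromBlocks_multiply, Matrix.fromBlocks_multiply, Matrix.fromBlocks_multiply]
    simp only [Matrix.one_mul, Matrix.mul_one, Matrix.mul_zero, Matrix.zero_mul, add_zero, zero_add, Matrix.add_mul, Matrix.neg_mul,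
      Matrix.mul_neg, neg_neg, Matrix.mul_assoc, hxx', Matrix.sub_mul]
    congr 1
    · rw [two_smul, Matrix.add_mul]
      abel
    · rw [neg_zero, zero_add]
  have h5 : (w₀ - (2 : ℚ) • v) * x' - w₀ ∈ Wsub h P := by
    rw [mem_Wsub, ← h4, cm_mul, cm_mul, cm_mul]
    exact Pr_mul (Pr_mul (Pr_mul h0 h1) h0) h2
  have h6 := W_mul hx' h5
  rw [Matrix.sub_mul, Matrix.mul_assoc, h3, Matrix.mul_one] at h6
  exact h6

/-- **All translations.** -/
theorem all_trans (hirr : Submodule.span ℚ {x : Matrix η η ℚ | ∃ v, Mo h P v x} = ⊤)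
    (hneg : ∃ v, Mo h P v (-1))
    (hind : ∀ c : J → ℚ, c ≠ 0 → ¬ ∃ z : η → ℚ, ∀ v x, Mo h P v x → Matrix.vecMul c v + Matrix.vecMul z x = z) :
    Wsub h P = ⊤ := by
  classical
  have hstab : ∀ (X : Matrix η η ℚ), ∀ w ∈ Wsub h P, w * X ∈ Wsub h P := by
    intro X w hw
    have hX : X ∈ Submodule.span ℚ {x : Matrix η η ℚ | ∃ v, Mo h P v x} := by rw [hirr]; trivial
    induction hX using Submodule.span_induction with
    | mem x hx =>
      obtain ⟨v, hv⟩ := hx
      exact W_mul hv hw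
    | zero => rw [Matrix.mul_zero]; exact Submodule.zero_mem _
    | add x y _ _ hx hy => rw [Matrix.mul_add]; exact Submodule.add_mem _ hx hy
    | smul q x _ hx => rw [Matrix.mul_smul]; exact Submodule.smul_mem _ _ hx
  -- the columns
  let L : Submodule ℚ (J → ℚ) :=
    { carrier := {ℓ | ∀ b, (Matrix.of fun j b' => if b' = b then ℓ j else 0 : Matrix J η ℚ) ∈ Wsub h P}
      add_mem' := by
        intro x y hx hy b
        have h1 := Submodule.add_mem _ (hx b) (hy b)
        convert h1 using 1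
        ext j b'
        simp only [Matrix.of_apply, Matrix.add_apply, Pi.add_apply]
        split_ifs <;> simp
      zero_mem' := by
        intro b
        convert Submodule.zero_mem (Wsub h P) using 1
        ext j b'
        simp
      smul_mem' := by
        intro q x hx b
        have h1 := Submodule.smul_mem _ q (hx b)
        convert h1 using 1
        ext j b'
        simp only [Matrix.of_apply, Matrix.smul_apply, Pi.smul_apply]
        split_ifs <;> simp }
  have hcol : ∀ w ∈ Wsub h P, ∀ b, (fun j => w j b) ∈ L := by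
    intro w hw b b''
    have h1 := hstab (Matrix.of fun l l' => if l = b ∧ l' = b'' then 1 else 0) w hw
    convert h1 using 1
    ext j b'
    rw [Matrix.mul_apply]
    simp only [Matrix.of_apply]
    rw [Finset.sum_eq_single b]
    · by_cases hb : b' = b''
      · simp [hb]
      · simp [hb]
    · intro l _ hl
      simp [hl]
    · intro hb
      exact absurd (Finset.mem_univ _) hb
  by_cases hL : L = ⊤
  · rw [eq_top_iff]
    intro w _
    have h1 : w = ∑ b, (Matrix.of fun j b' => if b' = b then w j b else 0 : Matrix J η ℚ) := by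
      ext j b'
      rw [Matrix.sum_apply]
      simp only [Matrix.of_apply]
      rw [Finset.sum_ite_eq Finset.univ b' fun b => w j b]
      simp
    rw [h1]
    refine Submodule.sum_mem _ fun b _ => ?_
    have h2 : (fun j => w j b) ∈ L := by rw [hL]; trivial
    exact h2 b
  · exfalso
    obtain ⟨φ, hφ0, hφ⟩ := Submodule.exists_le_ker_of_lt_top L (lt_top_iff_ne_top.2 hL)
    let c : J → ℚ := fun j => φ (Pi.single j 1)
    have hφc : ∀ ℓ : J → ℚ, φ ℓ = ∑ j, c j * ℓ j := by
      intro ℓ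
      have h1 : ℓ = ∑ j, ℓ j • (Pi.single j (1 : ℚ) : J → ℚ) := by
        funext j
        rw [Finset.sum_apply]
        simp [Pi.single_apply]
      conv_lhs => rw [h1]
      rw [map_sum]
      refine Finset.sum_congr rfl fun j _ => ?_
      rw [map_smul, smul_eq_mul, mul_comm]
    have hc : c ≠ 0 := by
      intro h0
      apply hφ0
      ext j
      show φ (Pi.single j 1) = 0
      exact congrFun h0 j
    obtain ⟨w₀, hw₀⟩ := hneg
    have hw₀' : Pr h P (cm (Matrix.fromBlocks 1 w₀ 0 (-1))) := by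
      obtain ⟨x', -, h1, -⟩ := hw₀
      exact h1
    refine hind c hc ⟨fun b => (Matrix.vecMul c w₀ b) / 2, fun v x hvx => ?_⟩
    have h1 := W_comm hw₀' hvx
    funext b
    have h2 := LinearMap.mem_ker.1 (hφ (hcol _ h1 b))
    rw [hφc] at h2
    have h3 : ∑ j, c j * (w₀ - (2 : ℚ) • v - w₀ * x) j b =
        Matrix.vecMul c w₀ b - 2 * Matrix.vecMul c v b - Matrix.vecMul (Matrix.vecMul c w₀) x b := by
      rw [Matrix.vecMul_vecMul]
      simp only [Matrix.vecMul, dotProduct, Matrix.sub_apply, Matrix.smul_apply, smul_eq_mul, mul_sub, Finset.sum_sub_distrib, Finset.mul_sum]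
      congr 2
      refine Finset.sum_congr rfl fun j _ => ?_
      ring
    rw [h3] at h2
    have h4 : Matrix.vecMul (fun b => Matrix.vecMul c w₀ b / 2) x b = Matrix.vecMul (Matrix.vecMul c w₀) x b / 2 := by
      show ∑ j, (Matrix.vecMul c w₀ j / 2) * x j b = (∑ j, Matrix.vecMul c w₀ j * x j b) / 2
      rw [Finset.sum_div]
      refine Finset.sum_congr rfl fun j _ => ?_
      ring
    rw [Pi.add_apply, h4]
    linarith

end mono

end Q207.AJ
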