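import Pool.Agent.TH574.PZ.Kron

/-!
# Kronecker's theorem in products of real tori
-/

set_option autoImplicit false

open Filter Topology

namespace Q207.AJ

/-- the real torus with the periods `γ_b` -/
abbrev Tr {f : ℕ} (γ : Fin f → Fin f → ℝ) : Type := (Fin f → ℝ) ⧸ AddSubgroup.closure (Set.range γ)

section
variable {k m : ℕ} {f : Fin k → ℕ} (γ : ∀ i, Fin (f i) → Fin (f i) → ℝ)

/-- the point with the coordinates `z` -/
noncomputable def ptT (z : ∀ i, Fin (f i) → ℝ) (q : Fin m → ℝ) : (∀ i, Tr (γ i)) × UnitAddTorus (Fin m) :=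
  (fun i => QuotientAddGroup.mk (fun c => ∑ b, z i b * γ i b c), fun l => (q l : UnitAddCircle))

theorem ptT_cont : Continuous fun z : ((Σ i, Fin (f i)) ⊕ Fin m) → ℝ =>
    ptT γ (fun i b => z (Sum.inl ⟨i, b⟩)) fun l => z (Sum.inr l) := by
  unfold ptT
  refine Continuous.prodMk (continuous_pi fun i => ?_) (continuous_pi fun l => ?_)
  · refine continuous_quotient_mk'.comp (continuous_pi fun c => ?_)
    fun_prop
  · exact (AddCircle.continuous_mk' 1).comp (continuous_apply _)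

theorem zmul_cl (β : ∀ i, Fin (f i) → ℝ) (q : Fin m → ℝ) (v : ∀ i, Fin (f i) → ℝ)
    (H : ∀ (u : ∀ i, Fin (f i) → ℤ) (u' : Fin m → ℤ) (n : ℤ),
      ∑ i, ∑ b, (u i b : ℝ) * β i b + ∑ l, (u' l : ℝ) * q l = n → ∑ i, ∑ b, (u i b : ℝ) * v i b = 0) :
    ptT γ v (0 : Fin m → ℝ) ∈ closure ((AddSubgroup.zmultiples (ptT γ β q) : AddSubgroup ((∀ i, Tr (γ i)) × UnitAddTorus (Fin m))) :
      Set ((∀ i, Tr (γ i)) × UnitAddTorus (Fin m))) := by
  classical
  set Φ : (((Σ i, Fin (f i)) ⊕ Fin m) → ℝ) → (∀ i, Tr (γ i)) × UnitAddTorus (Fin m) := fun z =>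
    ptT γ (fun i b => z (Sum.inl ⟨i, b⟩)) fun l => z (Sum.inr l) with hΦ
  have hc : Continuous Φ := ptT_cont γ
  set S : Set ((∀ i, Tr (γ i)) × UnitAddTorus (Fin m)) :=
    ((AddSubgroup.zmultiples (ptT γ β q) : AddSubgroup ((∀ i, Tr (γ i)) × UnitAddTorus (Fin m))) :
      Set ((∀ i, Tr (γ i)) × UnitAddTorus (Fin m))) with hS
  let yy : ((Σ i, Fin (f i)) ⊕ Fin m) → ℝ := Sum.elim (fun v => β v.1 v.2) q
  let vv : ((Σ i, Fin (f i)) ⊕ Fin m) → ℝ := Sum.elim (fun w => v w.1 w.2) 0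
  have key : vv ∈ closure (Φ ⁻¹' S) := by
    rw [Metric.mem_closure_iff]
    intro ε hε
    have hk : ∀ κ : ((Σ i, Fin (f i)) ⊕ Fin m) → ℤ, ∑ c, κ c • (yy c : UnitAddCircle) = 0 →
        ∑ c, κ c • (vv c : UnitAddCircle) = 0 := by
      intro κ hκ
      have h6 : ∀ z : ((Σ i, Fin (f i)) ⊕ Fin m) → ℝ, ∑ c, κ c • (z c : UnitAddCircle) = ((∑ c, (κ c : ℝ) * z c : ℝ) : UnitAddCircle) := by
        intro z
        have h7 : ((∑ c, (κ c : ℝ) * z c : ℝ) : UnitAddCircle) = ∑ c, (((κ c : ℝ) * z c : ℝ) : UnitAddCircle) :=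
          map_sum (QuotientAddGroup.mk' (AddSubgroup.zmultiples (1 : ℝ))) _ _
        rw [h7]
        refine Finset.sum_congr rfl fun c _ => ?_
        rw [← zsmul_eq_mul, AddCircle.coe_zsmul]
      rw [h6, AddCircle.coe_eq_zero_iff] at hκ
      obtain ⟨n, hn⟩ := hκ
      rw [h6]
      have h8 := H (fun i b => κ (Sum.inl ⟨i, b⟩)) (fun l => κ (Sum.inr l)) n (by
        rw [Fintype.sum_sum_type, Fintype.sum_sigma] at hn
        rw [zsmul_eq_mul, mul_one] at hn
        exact hn.symm)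
      rw [Fintype.sum_sum_type, Fintype.sum_sigma]
      have h9 : ∑ i, ∑ b, (κ (Sum.inl ⟨i, b⟩) : ℝ) * vv (Sum.inl ⟨i, b⟩) + ∑ l, (κ (Sum.inr l) : ℝ) * vv (Sum.inr l) = 0 := by
        have h10 : ∑ l, (κ (Sum.inr l) : ℝ) * vv (Sum.inr l) = 0 :=
          Finset.sum_eq_zero fun l _ => mul_zero _
        rw [h10, add_zero]
        exact h8
      rw [h9]
      rfl
    obtain ⟨n, hn⟩ := Pool.Agent.TH574.PZ.kronecker (I := (Σ i, Fin (f i)) ⊕ Fin m)
      (fun c => (yy c : UnitAddCircle)) (fun c => (vv c : UnitAddCircle)) hk (ε / 2) (by linarith)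
    · have h1 : ∀ c, ∃ p : ℤ, |(n : ℝ) * yy c - p - vv c| < ε / 2 := by
        intro c
        have h2 : dist ((n • fun c => (yy c : UnitAddCircle)) c) (vv c : UnitAddCircle) < ε / 2 :=
          (dist_le_pi_dist _ _ c).trans_lt hn
        rw [dist_eq_norm] at h2
        have h3 : (n • fun c => (yy c : UnitAddCircle)) c - (vv c : UnitAddCircle) =
            (((n : ℝ) * yy c - vv c : ℝ) : UnitAddCircle) := by
          rw [AddCircle.coe_sub, Pi.smul_apply]
          congr 1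
          rw [← zsmul_eq_mul, AddCircle.coe_zsmul]
        rw [h3, UnitAddCircle.norm_eq] at h2
        refine ⟨round ((n : ℝ) * yy c - vv c), ?_⟩
        rw [show (n : ℝ) * yy c - (round ((n : ℝ) * yy c - vv c) : ℤ) - vv c =
          (n : ℝ) * yy c - vv c - (round ((n : ℝ) * yy c - vv c) : ℤ) by ring]
        exact h2
      choose p hp using h1
      refine ⟨fun c => (n : ℝ) * yy c - p c, ?_, ?_⟩
      · show Φ (fun c => (n : ℝ) * yy c - p c) ∈ S
        refine AddSubgroup.mem_zmultiples_iff.2 ⟨n, ?_⟩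
        rw [hΦ]
        unfold ptT
        refine Prod.ext ?_ ?_
        · funext i
          show n • (QuotientAddGroup.mk (fun c => ∑ b, β i b * γ i b c) : Tr (γ i)) = QuotientAddGroup.mk _
          rw [← QuotientAddGroup.mk_zsmul, QuotientAddGroup.eq]
          have h4 : (-(n • fun c => ∑ b, β i b * γ i b c) + fun c => ∑ b, ((n : ℝ) * yy (Sum.inl ⟨i, b⟩) - p (Sum.inl ⟨i, b⟩)) * γ i b c) =
              ∑ b, (-(p (Sum.inl ⟨i, b⟩))) • γ i b := by
            funext c
            rw [Pi.add_apply, Pi.neg_apply, Pi.smul_apply, zsmul_eq_mul, Finset.mul_sum, Finset.sum_apply, ← Finset.sum_neg_distrib,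
              ← Finset.sum_add_distrib]
            refine Finset.sum_congr rfl fun b _ => ?_
            rw [Pi.smul_apply, zsmul_eq_mul]
            show -((n : ℝ) * (β i b * γ i b c)) + ((n : ℝ) * β i b - p (Sum.inl ⟨i, b⟩)) * γ i b c = _
            push_cast
            ring
          rw [h4]
          exact AddSubgroup.sum_mem _ fun b _ => AddSubgroup.zsmul_mem _ (AddSubgroup.subset_closure (Set.mem_range_self b)) _
        · funext l
          show n • (q l : UnitAddCircle) = (((n : ℝ) * q l - p (Sum.inr l) : ℝ) : UnitAddCircle)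
          rw [AddCircle.coe_sub]
          have h5 : (((p (Sum.inr l) : ℤ) : ℝ) : UnitAddCircle) = 0 := by
            rw [AddCircle.coe_eq_zero_iff]
            exact ⟨p (Sum.inr l), by simp⟩
          rw [h5, sub_zero, ← zsmul_eq_mul, AddCircle.coe_zsmul]
      · refine (dist_pi_lt_iff hε).2 fun c => ?_
        rw [Real.dist_eq, abs_sub_comm]
        exact (hp c).trans (by linarith)
  have h1 : Φ vv ∈ closure (Φ '' (Φ ⁻¹' S)) := (image_closure_subset_closure_image hc) ⟨vv, key, rfl⟩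
  have h2 : Φ vv = ptT γ v (0 : Fin m → ℝ) := rfl
  rw [← h2]
  exact closure_mono (Set.image_preimage_subset _ _) h1

end

end Q207.AJ
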