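import Pool.Agent.Q207.AJ.Dens
import Pool.Agent.Q207.AJ.Tor
import Pool.Agent.Q207.AJ.Irr

/-!
# Density of the multiples at good points
-/

set_option autoImplicit false

open Matrix Finset PowerSeries Filter Topology

namespace Q207.AJ

open Pool.Agent.Y120.R (Fam gx p1 Sat pn E1 c1_real)

/-- restriction to a part of the rows -/
theorem Pr_restrict {ι ι' κ : Type} [Fintype ι] [Fintype ι'] {r : ℕ} {h : Fin r → ℚ⟦X⟧}
    {P : ι → κ → MvPolynomial (Option (Fin r)) ℂ} (η : ι' → ι) {g : Matrix ι ι ℂ} {g' : Matrix ι' ι' ℂ} (hg : Pr h P g)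
    (hgg : ∀ (Z : Matrix ι κ ℂ) a c, (g * Z) (η a) c = (g' * (Z.submatrix η id)) a c) : Pr h (fun a => P (η a)) g' := by
  intro R hR
  let R' : MvPolynomial (ι × κ) (Polynomial ℂ) := MvPolynomial.rename (fun v : ι' × κ => (η v.1, v.2)) R
  have h1 : ∀ (s : ℝ) (Z : Matrix ι κ ℂ), rl R' s Z = rl R s (Z.submatrix η id) := by
    intro s Z
    unfold rl
    rw [MvPolynomial.eval₂_rename]
    rfl
  have h2 : ∀ s : ℝ, (pm h P s).submatrix η id = pm h (fun a => P (η a)) s := fun s => rfl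
  have h3 := hg R' (by
    filter_upwards [hR] with s hs
    rw [h1, h2]
    exact hs)
  filter_upwards [h3] with s hs
  rw [h1] at hs
  have h4 : (g * pm h P s).submatrix η id = g' * pm h (fun a => P (η a)) s := by
    ext a c
    rw [← h2]
    exact hgg _ a c
  rw [← h4]
  exact hs

section
variable {k m s₀ : ℕ} {s f : Fin k → ℕ}

/-- the sublattice of the coefficients -/
noncomputable def Vq (q : Fin s₀ → Fin m → ℝ) : Submodule ℚ ℂ :=
  Submodule.span ℚ ((Finset.univ : Finset (Option (Fin s₀ × Fin m))).image (fun o => o.elim (1 : ℂ) fun v => ((q v.1 v.2 : ℝ) : ℂ)) :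
    Finset ℂ)

instance (q : Fin s₀ → Fin m → ℝ) : Module.Finite ℚ (Vq q) := by
  unfold Vq
  exact Module.Finite.span_finset ℚ _

theorem Vq_rank (q : Fin s₀ → Fin m → ℝ) : Module.finrank ℚ (Vq q) ≤ s₀ * m + 1 := by
  unfold Vq
  refine (finrank_span_finset_le_card _).trans (Finset.card_image_le.trans ?_)
  simp

theorem Vq_one (q : Fin s₀ → Fin m → ℝ) : (1 : ℂ) ∈ Vq q :=
  Submodule.subset_span (by
    rw [Finset.mem_coe, Finset.mem_image]
    exact ⟨none, Finset.mem_univ _, rfl⟩)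

theorem Vq_mem (q : Fin s₀ → Fin m → ℝ) (j : Fin s₀) (l : Fin m) : ((q j l : ℝ) : ℂ) ∈ Vq q :=
  Submodule.subset_span (by
    rw [Finset.mem_coe, Finset.mem_image]
    exact ⟨some (j, l), Finset.mem_univ _, rfl⟩)

/-- the property of the good points -/
def GoodD (T : ∀ i, Set (Fin (s i) → Fin (f i) → ℚ)) (V : Submodule ℚ ℂ) (M : ∀ i, Matrix (Fin (s i) ⊕ Fin (f i)) (Fin (f i)) ℂ) : Prop :=
  ∀ (a : ∀ i, Fin (s i) → ℤ) (u : ∀ i, Fin (f i) → ℤ) (u₀ : ℂ) (β : ∀ i, Fin (f i) → ℂ), u₀ ∈ V →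
    (∀ i c, ∑ j, (a i j : ℂ) * M i (Sum.inl j) c = ∑ b, β i b * M i (Sum.inr b) c) →
    ∑ i, ∑ b, (u i b : ℂ) * β i b = u₀ → ∀ i, ∀ w ∈ T i, ∑ b, (u i b : ℚ) * ∑ j, (a i j : ℚ) * w j b = 0

theorem asm (T : ∀ i, Set (Fin (s i) → Fin (f i) → ℚ)) (q : Fin s₀ → Fin m → ℝ)
    (M : ∀ i, Matrix (Fin (s i) ⊕ Fin (f i)) (Fin (f i)) ℂ) (hM : GoodD T (Vq q) M) (hreal : ∀ i a c, (M i a c).im = 0)
    (hli : ∀ i, LinearIndependent ℝ fun b : Fin (f i) => fun c => (M i (Sum.inr b) c).re)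
    (a : ∀ i, Fin (s i) → ℤ) (a₀ : Fin s₀ → ℤ) (z : ∀ i, Fin (f i) → ℝ)
    (hz : ∀ i, z i ∈ Submodule.span ℝ {z : Fin (f i) → ℝ | ∃ w ∈ T i,
      z = fun c => ∑ b, (∑ j, (a i j : ℝ) * (w j b : ℝ)) * (M i (Sum.inr b) c).re}) :
    ((fun i => QuotientAddGroup.mk (z i), 0) : (∀ i, Tr fun b c => (M i (Sum.inr b) c).re) × UnitAddTorus (Fin m)) ∈
      closure (Set.range fun n : ℤ => n • ((fun i => QuotientAddGroup.mk (fun c => ∑ j, (a i j : ℝ) * (M i (Sum.inl j) c).re),
        ∑ j, a₀ j • (fun l => ((q j l : ℝ) : UnitAddCircle))) :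
          (∀ i, Tr fun b c => (M i (Sum.inr b) c).re) × UnitAddTorus (Fin m))) := by
  classical
  -- coordinates
  have hspan : ∀ i, ∀ y : Fin (f i) → ℝ, ∃ β : Fin (f i) → ℝ, ∀ c, y c = ∑ b, β b * (M i (Sum.inr b) c).re := by
    intro i y
    have h1 : y ∈ Submodule.span ℝ (Set.range fun b : Fin (f i) => fun c => (M i (Sum.inr b) c).re) := by
      rw [(hli i).span_eq_top_of_card_eq_finrank' (by simp)]
      trivial
    rw [Submodule.mem_span_range_iff_exists_fun] at h1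
    obtain ⟨β, hβ⟩ := h1
    refine ⟨β, fun c => ?_⟩
    rw [← hβ, Finset.sum_apply]
    rfl
  choose β hβ using fun i => hspan i fun c => ∑ j, (a i j : ℝ) * (M i (Sum.inl j) c).re
  -- the coordinates of the translations
  have hv : ∀ i, ∃ v : Fin (f i) → ℝ, (z i = fun c => ∑ b, v b * (M i (Sum.inr b) c).re) ∧
      ∀ u : Fin (f i) → ℤ, (∀ w ∈ T i, ∑ b, (u b : ℚ) * ∑ j, (a i j : ℚ) * w j b = 0) → ∑ b, (u b : ℝ) * v b = 0 := by
    intro i
    have hgen : ∀ y ∈ Submodule.span ℝ {z : Fin (f i) → ℝ | ∃ w ∈ T i,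
        z = fun c => ∑ b, (∑ j, (a i j : ℝ) * (w j b : ℝ)) * (M i (Sum.inr b) c).re},
        ∃ v : Fin (f i) → ℝ, (y = fun c => ∑ b, v b * (M i (Sum.inr b) c).re) ∧
        ∀ u : Fin (f i) → ℤ, (∀ w ∈ T i, ∑ b, (u b : ℚ) * ∑ j, (a i j : ℚ) * w j b = 0) → ∑ b, (u b : ℝ) * v b = 0 := ?_
    · exact hgen _ (hz i)
    intro y hy
    induction hy using Submodule.span_induction with
    | mem x hx =>
      obtain ⟨w, hw, rfl⟩ := hx
      refine ⟨fun b => ∑ j, (a i j : ℝ) * (w j b : ℝ), rfl, fun u hu => ?_⟩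
      have h2 := hu w hw
      have h3 : ((∑ b, (u b : ℚ) * ∑ j, (a i j : ℚ) * w j b : ℚ) : ℝ) = 0 := by rw [h2]; simp
      push_cast at h3
      exact h3
    | zero => exact ⟨0, by funext c; simp, fun u _ => by simp⟩
    | add x y _ _ hx hy =>
      obtain ⟨v, rfl, hv⟩ := hx
      obtain ⟨v', rfl, hv'⟩ := hy
      refine ⟨v + v', ?_, fun u hu => ?_⟩
      · funext c
        rw [Pi.add_apply, ← Finset.sum_add_distrib]
        refine Finset.sum_congr rfl fun b _ => ?_
        rw [Pi.add_apply]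
        ring
      · have h1 := hv u hu
        have h2 := hv' u hu
        simp only [Pi.add_apply, mul_add, Finset.sum_add_distrib, h1, h2, add_zero]
    | smul τ x _ hx =>
      obtain ⟨v, rfl, hv⟩ := hx
      refine ⟨τ • v, ?_, fun u hu => ?_⟩
      · funext c
        rw [Pi.smul_apply, smul_eq_mul, Finset.mul_sum]
        refine Finset.sum_congr rfl fun b _ => ?_
        rw [Pi.smul_apply, smul_eq_mul]
        ring
      · have h1 := hv u hu
        have h2 : ∑ b, (u b : ℝ) * (τ • v) b = τ * ∑ b, (u b : ℝ) * v b := by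
          rw [Finset.mul_sum]
          refine Finset.sum_congr rfl fun b _ => ?_
          rw [Pi.smul_apply, smul_eq_mul]
          ring
        rw [h2, h1, mul_zero]
  choose v hzv hv using hv
  let qq : Fin m → ℝ := fun l => ∑ j, (a₀ j : ℝ) * q j l
  have key := zmul_cl (fun i b c => (M i (Sum.inr b) c).re) β qq v ?_
  · have h1 : ptT (fun i (b : Fin (f i)) c => (M i (Sum.inr b) c).re) v (0 : Fin m → ℝ) =
        ((fun i => QuotientAddGroup.mk (z i), 0) : (∀ i, Tr fun b c => (M i (Sum.inr b) c).re) × UnitAddTorus (Fin m)) := by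
      unfold ptT
      refine Prod.ext ?_ ?_
      · funext i
        show QuotientAddGroup.mk _ = QuotientAddGroup.mk (z i)
        rw [hzv i]
      · funext l
        show ((0 : ℝ) : UnitAddCircle) = 0
        exact AddCircle.coe_zero _
    have h2 : ptT (fun i (b : Fin (f i)) c => (M i (Sum.inr b) c).re) β qq =
        ((fun i => QuotientAddGroup.mk (fun c => ∑ j, (a i j : ℝ) * (M i (Sum.inl j) c).re),
          ∑ j, a₀ j • (fun l => ((q j l : ℝ) : UnitAddCircle))) :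
          (∀ i, Tr fun b c => (M i (Sum.inr b) c).re) × UnitAddTorus (Fin m)) := by
      unfold ptT
      refine Prod.ext ?_ ?_
      · funext i
        show QuotientAddGroup.mk _ = QuotientAddGroup.mk _
        congr 1
        funext c
        exact (hβ i c).symm
      · funext l
        show ((qq l : ℝ) : UnitAddCircle) = (∑ j, a₀ j • (fun l => ((q j l : ℝ) : UnitAddCircle)) : UnitAddTorus (Fin m)) l
        rw [Finset.sum_apply]
        have h3 : ((qq l : ℝ) : UnitAddCircle) = ∑ j, (((a₀ j : ℝ) * q j l : ℝ) : UnitAddCircle) :=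
          map_sum (QuotientAddGroup.mk' (AddSubgroup.zmultiples (1 : ℝ))) _ _
        rw [h3]
        refine Finset.sum_congr rfl fun j _ => ?_
        rw [← zsmul_eq_mul, AddCircle.coe_zsmul]
        rfl
    rw [h1, h2] at key
    convert key using 2
    ext x
    rw [SetLike.mem_coe, AddSubgroup.mem_zmultiples_iff]
    exact Iff.rfl
  · intro u u' n hn
    let u₀ : ℂ := (n : ℂ) - ∑ l, (u' l : ℂ) * ∑ j, (a₀ j : ℂ) * ((q j l : ℝ) : ℂ)
    have hu₀ : u₀ ∈ Vq q := by
      have hint : ∀ (c : ℤ) (y : ℂ), y ∈ Vq q → (c : ℂ) * y ∈ Vq q := by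
        intro c y hy
        have h1 : (c : ℂ) * y = (c : ℚ) • y := by
          rw [Algebra.smul_def]
          simp
        rw [h1]
        exact Submodule.smul_mem _ _ hy
      refine Submodule.sub_mem _ ?_ (Submodule.sum_mem _ fun l _ => hint _ _ (Submodule.sum_mem _ fun j _ => hint _ _ (Vq_mem q j l)))
      rw [← mul_one (n : ℂ)]
      exact hint _ _ (Vq_one q)
    have h1 := hM a u u₀ (fun i b => ((β i b : ℝ) : ℂ)) hu₀ ?_ ?_
    · refine Finset.sum_eq_zero fun i _ => hv i (u i) fun w hw => h1 i w hw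
    · intro i c
      have h2 : ∀ x c, M i x c = (((M i x c).re : ℝ) : ℂ) := fun x c => by
        apply Complex.ext
        · simp
        · simp [hreal i x c]
      have h3 := hβ i c
      have h4 : (((∑ j, (a i j : ℝ) * (M i (Sum.inl j) c).re : ℝ)) : ℂ) = ((∑ b, β i b * (M i (Sum.inr b) c).re : ℝ) : ℂ) := by
        rw [h3]
      push_cast at h4
      rw [Finset.sum_congr rfl fun j _ => by rw [h2 (Sum.inl j) c], h4]
      exact Finset.sum_congr rfl fun b _ => by rw [← h2 (Sum.inr b) c]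
    · have h2 : ((∑ i, ∑ b, (u i b : ℝ) * β i b + ∑ l, (u' l : ℝ) * qq l : ℝ) : ℂ) = ((n : ℝ) : ℂ) := by rw [hn]
      push_cast at h2
      have h3 : ∑ l, (u' l : ℂ) * ((qq l : ℝ) : ℂ) = ∑ l, (u' l : ℂ) * ∑ j, (a₀ j : ℂ) * ((q j l : ℝ) : ℂ) := by
        refine Finset.sum_congr rfl fun l _ => ?_
        simp only [qq]
        push_cast
        rfl
      show ∑ i, ∑ b, (u i b : ℂ) * ((β i b : ℝ) : ℂ) = u₀
      rw [h3] at h2
      simp only [u₀]
      linear_combination h2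

end

end Q207.AJ
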