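import Pool.Agent.Q207.AJ.Main

/-!
# Rational relations between real Betti coordinates at almost all integral points
-/

set_option autoImplicit false

open Matrix Finset PowerSeries Filter

namespace Q207.AJ

open Pool.Agent.Y120.R (Fam gx p1 Sat pn E1 c1_real)

/-! ### Degrees of determinants -/

theorem det_totalDegree {σ R : Type} [CommRing R] {n : Type} [Fintype n] [DecidableEq n] (A : Matrix n n (MvPolynomial σ R))
    (hA : ∀ a b, (A a b).totalDegree ≤ 1) : A.det.totalDegree ≤ Fintype.card n := by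
  rw [Matrix.det_apply]
  refine (MvPolynomial.totalDegree_finsetSum _ _).trans (Finset.sup_le fun p _ => ?_)
  have h1 : (Equiv.Perm.sign p • ∏ i, A (p i) i).totalDegree ≤ (∏ i, A (p i) i).totalDegree := by
    rcases Int.units_eq_one_or (Equiv.Perm.sign p) with h | h
    · rw [h, one_smul]
    · rw [h, Units.neg_smul, one_smul, MvPolynomial.totalDegree_neg]
  refine h1.trans ((MvPolynomial.totalDegree_finsetProd _ _).trans ?_)
  refine (Finset.sum_le_sum fun i _ => hA (p i) i).trans ?_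
  simp

theorem map_deg {σ R S : Type} [CommRing R] [CommRing S] (g : R →+* S) (p : MvPolynomial σ R) :
    (MvPolynomial.map g p).totalDegree ≤ p.totalDegree := by
  classical
  unfold MvPolynomial.totalDegree
  exact Finset.sup_mono (MvPolynomial.support_map_subset _ _)

/-- Cramer: replace a row by a combination of the rows -/
theorem det_row_comb {R : Type} [CommRing R] {n : Type} [Fintype n] [DecidableEq n] (A : Matrix n n R) (β : n → R) (b : n) :
    (A.updateRow b (fun c => ∑ l, β l * A l c)).det = β b * A.det := by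
  have h1 : (fun c => ∑ l, β l * A l c) = ∑ l, β l • A l := by
    funext c
    rw [Finset.sum_apply]
    rfl
  rw [h1]
  exact Matrix.det_updateRow_sum A b β

section rel
variable {k : ℕ} {s f : Fin k → ℕ}

/-- the variables -/
abbrev Vr (s f : Fin k → ℕ) : Type := Σ i, (Fin (s i) ⊕ Fin (f i)) × Fin (f i)

/-- the generic matrix of the periods -/
noncomputable def gA (s f : Fin k → ℕ) (i : Fin k) : Matrix (Fin (f i)) (Fin (f i)) (MvPolynomial (Vr s f) ℚ) :=
  Matrix.of fun b c => MvPolynomial.X ⟨i, (Sum.inr b, c)⟩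

/-- the generic vector of the integrals of the combination `a` -/
noncomputable def gN (s f : Fin k → ℕ) (a : ∀ i, Fin (s i) → ℤ) (i : Fin k) (c : Fin (f i)) : MvPolynomial (Vr s f) ℚ :=
  ∑ j, MvPolynomial.C (a i j : ℚ) * MvPolynomial.X ⟨i, (Sum.inl j, c)⟩

/-- the product of the determinants -/
noncomputable def F1 (s f : Fin k → ℕ) : MvPolynomial (Vr s f) ℚ := ∏ i, (gA s f i).det

/-- the numerator of the linear form -/
noncomputable def F2 (s f : Fin k → ℕ) (a : ∀ i, Fin (s i) → ℤ) (u : ∀ i, Fin (f i) → ℤ) : MvPolynomial (Vr s f) ℚ :=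
  ∑ i, (∑ b, MvPolynomial.C (u i b : ℚ) * ((gA s f i).updateRow b (gN s f a i)).det) * ∏ j ∈ Finset.univ.erase i, (gA s f j).det

theorem F1_deg : (F1 s f).totalDegree ≤ ∑ i, f i := by
  unfold F1
  refine (MvPolynomial.totalDegree_finsetProd _ _).trans (Finset.sum_le_sum fun i _ => ?_)
  refine (det_totalDegree _ fun b c => ?_).trans (by simp)
  exact (MvPolynomial.totalDegree_X _).le

theorem gN_deg (a : ∀ i, Fin (s i) → ℤ) (i : Fin k) (c : Fin (f i)) : (gN s f a i c).totalDegree ≤ 1 := by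
  unfold gN
  refine (MvPolynomial.totalDegree_finsetSum _ _).trans (Finset.sup_le fun j _ => ?_)
  refine (MvPolynomial.totalDegree_mul _ _).trans ?_
  rw [MvPolynomial.totalDegree_C, MvPolynomial.totalDegree_X, zero_add]

theorem F2_deg (a : ∀ i, Fin (s i) → ℤ) (u : ∀ i, Fin (f i) → ℤ) : (F2 s f a u).totalDegree ≤ ∑ i, f i := by
  unfold F2
  refine (MvPolynomial.totalDegree_finsetSum _ _).trans (Finset.sup_le fun i _ => ?_)
  refine (MvPolynomial.totalDegree_mul _ _).trans ?_
  rw [← Finset.add_sum_erase Finset.univ f (Finset.mem_univ i)]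
  refine add_le_add ?_ ?_
  · refine (MvPolynomial.totalDegree_finsetSum _ _).trans (Finset.sup_le fun b _ => ?_)
    refine (MvPolynomial.totalDegree_mul _ _).trans ?_
    rw [MvPolynomial.totalDegree_C, zero_add]
    refine (det_totalDegree _ fun b' c => ?_).trans (by simp)
    rw [Matrix.updateRow_apply]
    split_ifs
    · exact gN_deg a i c
    · exact (MvPolynomial.totalDegree_X _).le
  · refine (MvPolynomial.totalDegree_finsetProd _ _).trans (Finset.sum_le_sum fun j _ => ?_)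
    refine (det_totalDegree _ fun b c => ?_).trans (by simp)
    exact (MvPolynomial.totalDegree_X _).le

/-- the relation -/
noncomputable def Fu (s f : Fin k → ℕ) (a : ∀ i, Fin (s i) → ℤ) (u : ∀ i, Fin (f i) → ℤ) (u₀ : ℂ) : MvPolynomial (Vr s f) ℂ :=
  MvPolynomial.C u₀ * MvPolynomial.map (algebraMap ℚ ℂ) (F1 s f) - MvPolynomial.map (algebraMap ℚ ℂ) (F2 s f a u)

theorem Fu_deg (a : ∀ i, Fin (s i) → ℤ) (u : ∀ i, Fin (f i) → ℤ) (u₀ : ℂ) : (Fu s f a u u₀).totalDegree ≤ ∑ i, f i := by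
  unfold Fu
  refine (MvPolynomial.totalDegree_sub _ _).trans (max_le ?_ ?_)
  · refine (MvPolynomial.totalDegree_mul _ _).trans ?_
    rw [MvPolynomial.totalDegree_C, zero_add]
    exact (map_deg _ _).trans F1_deg
  · exact (map_deg _ _).trans (F2_deg a u)

theorem Fu_coeff (a : ∀ i, Fin (s i) → ℤ) (u : ∀ i, Fin (f i) → ℤ) (u₀ : ℂ) (V : Submodule ℚ ℂ) (h1 : (1 : ℂ) ∈ V) (h0 : u₀ ∈ V)
    (m : Vr s f →₀ ℕ) : (Fu s f a u u₀).coeff m ∈ V := by
  unfold Fu
  rw [MvPolynomial.coeff_sub, MvPolynomial.coeff_C_mul, MvPolynomial.coeff_map, MvPolynomial.coeff_map]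
  refine Submodule.sub_mem _ ?_ ?_
  · rw [mul_comm, ← Algebra.smul_def]
    exact Submodule.smul_mem _ _ h0
  · rw [← mul_one (algebraMap ℚ ℂ _), ← Algebra.smul_def]
    exact Submodule.smul_mem _ _ h1

/-- the values of the relation -/
theorem Fu_eval (a : ∀ i, Fin (s i) → ℤ) (u : ∀ i, Fin (f i) → ℤ) (u₀ : ℂ)
    (M : ∀ i, Matrix (Fin (s i) ⊕ Fin (f i)) (Fin (f i)) ℂ) (β : ∀ i, Fin (f i) → ℂ)
    (hβ : ∀ i c, ∑ j, (a i j : ℂ) * M i (Sum.inl j) c = ∑ b, β i b * M i (Sum.inr b) c) :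
    MvPolynomial.eval (fun v : Vr s f => M v.1 v.2.1 v.2.2) (Fu s f a u u₀) =
      (u₀ - ∑ i, ∑ b, (u i b : ℂ) * β i b) * ∏ i, (Matrix.of fun b c => M i (Sum.inr b) c : Matrix (Fin (f i)) (Fin (f i)) ℂ).det := by
  classical
  set z : Vr s f → ℂ := fun v => M v.1 v.2.1 v.2.2 with hz
  let φ : MvPolynomial (Vr s f) ℚ →+* ℂ := (MvPolynomial.eval z).comp (MvPolynomial.map (algebraMap ℚ ℂ))
  have hX : ∀ v, φ (MvPolynomial.X v) = z v := fun v => by simp [φ]
  have hC : ∀ q : ℚ, φ (MvPolynomial.C q) = (q : ℂ) := fun q => by simp [φ]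
  let A : ∀ i, Matrix (Fin (f i)) (Fin (f i)) ℂ := fun i => Matrix.of fun b c => M i (Sum.inr b) c
  have hA : ∀ i, φ.mapMatrix (gA s f i) = A i := by
    intro i
    ext b c
    exact hX _
  have hdet : ∀ i, φ (gA s f i).det = (A i).det := by
    intro i
    rw [RingHom.map_det, hA]
  have hN : ∀ i c, φ (gN s f a i c) = ∑ b, β i b * A i b c := by
    intro i c
    unfold gN
    rw [map_sum]
    refine Eq.trans (Finset.sum_congr rfl fun j _ => ?_) (hβ i c)
    rw [map_mul, hX, hC]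
    push_cast
    rfl
  have hup : ∀ i b, φ ((gA s f i).updateRow b (gN s f a i)).det = β i b * (A i).det := by
    intro i b
    rw [RingHom.map_det]
    have h1 : φ.mapMatrix ((gA s f i).updateRow b (gN s f a i)) = (A i).updateRow b (fun c => ∑ l, β i l * A i l c) := by
      ext b' c
      show φ (((gA s f i).updateRow b (gN s f a i)) b' c) = _
      rw [Matrix.updateRow_apply, Matrix.updateRow_apply]
      split_ifs
      · exact hN i c
      · exact hX _
    rw [h1, det_row_comb]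
  have h1 : MvPolynomial.eval z (MvPolynomial.map (algebraMap ℚ ℂ) (F1 s f)) = ∏ i, (A i).det := by
    show φ (F1 s f) = _
    unfold F1
    rw [map_prod]
    exact Finset.prod_congr rfl fun i _ => hdet i
  have h2 : MvPolynomial.eval z (MvPolynomial.map (algebraMap ℚ ℂ) (F2 s f a u)) =
      (∑ i, ∑ b, (u i b : ℂ) * β i b) * ∏ i, (A i).det := by
    show φ (F2 s f a u) = _
    unfold F2
    rw [map_sum, Finset.sum_mul]
    refine Finset.sum_congr rfl fun i _ => ?_
    rw [map_mul, map_sum, map_prod, ← Finset.mul_prod_erase Finset.univ (fun i => (A i).det) (Finset.mem_univ i)]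
    rw [← mul_assoc]
    congr 1
    · rw [Finset.sum_mul]
      refine Finset.sum_congr rfl fun b _ => ?_
      rw [map_mul, hC, hup]
      push_cast
      ring
    · exact Finset.prod_congr rfl fun j _ => hdet j
  unfold Fu
  rw [map_sub, map_mul, MvPolynomial.eval_C, h1, h2]
  ring

/-- the translation by `w` -/
noncomputable def shift {s f : ℕ} (w : Fin s → Fin f → ℚ) : Matrix (Fin s ⊕ Fin f) (Fin s ⊕ Fin f) ℂ :=
  Matrix.fromBlocks 1 (Matrix.of fun j b => ((w j b : ℚ) : ℂ)) 0 1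

theorem shift_inl {s f : ℕ} (w : Fin s → Fin f → ℚ) (M : Matrix (Fin s ⊕ Fin f) (Fin f) ℂ) (j : Fin s) (c : Fin f) :
    (shift w * M) (Sum.inl j) c = M (Sum.inl j) c + ∑ b, (w j b : ℂ) * M (Sum.inr b) c := by
  rw [Matrix.mul_apply, Fintype.sum_sum_type]
  unfold shift
  simp only [Matrix.fromBlocks_apply₁₁, Matrix.fromBlocks_apply₁₂, Matrix.of_apply]
  congr 1
  simp [Matrix.one_apply]

theorem shift_inr {s f : ℕ} (w : Fin s → Fin f → ℚ) (M : Matrix (Fin s ⊕ Fin f) (Fin f) ℂ) (b c : Fin f) :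
    (shift w * M) (Sum.inr b) c = M (Sum.inr b) c := by
  rw [Matrix.mul_apply, Fintype.sum_sum_type]
  unfold shift
  simp only [Matrix.fromBlocks_apply₂₁, Matrix.fromBlocks_apply₂₂]
  simp [Matrix.one_apply]

theorem one_mul_tr {s f r : ℕ} (h : Fin r → ℚ⟦X⟧) (P : Fin s ⊕ Fin f → Fin f → MvPolynomial (Option (Fin r)) ℂ) :
    Pr h P (1 : Matrix (Fin s ⊕ Fin f) (Fin s ⊕ Fin f) ℂ) := by
  intro R hR
  simpa using hR

end rel

section core
variable {k : ℕ} {r s f : Fin k → ℕ}

/-- For almost all tuples every linear relation between the coordinates of the combinations of the sections with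
respect to the periods is invariant under the translations. -/
theorem dens (e D : ℕ) (h : ∀ i, Fin (r i) → ℚ⟦X⟧) (hF : ∀ i δ, Fam δ (h i)) :
    ∃ c C : ℝ, 0 < c ∧ 0 ≤ C ∧
      ∀ P : ∀ i, Fin (s i) ⊕ Fin (f i) → Fin (f i) → MvPolynomial (Option (Fin (r i))) ℂ,
      (∀ i a b, (P i a b).totalDegree ≤ e) →
      ∀ (V : Submodule ℚ ℂ) [Module.Finite ℚ V], Module.finrank ℚ V ≤ D → (1 : ℂ) ∈ V →
      ∀ (x : Fin k → ℕ) (N : ℕ), 1 ≤ N → ∀ S : Finset (Fin k → ℕ),
      (∀ t ∈ S, (∀ i, x i < t i ∧ t i ≤ x i + N) ∧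
        (∀ i, (Matrix.of fun b c => pm (h i) (P i) (t i : ℝ) (Sum.inr b) c : Matrix (Fin (f i)) (Fin (f i)) ℂ).det ≠ 0) ∧
        ∃ (a : ∀ i, Fin (s i) → ℤ) (u : ∀ i, Fin (f i) → ℤ) (u₀ : ℂ) (β : ∀ i, Fin (f i) → ℂ), u₀ ∈ V ∧
          (∀ i c, ∑ j, (a i j : ℂ) * pm (h i) (P i) (t i : ℝ) (Sum.inl j) c =
            ∑ b, β i b * pm (h i) (P i) (t i : ℝ) (Sum.inr b) c) ∧
          ∑ i, ∑ b, (u i b : ℂ) * β i b = u₀ ∧
          ∃ (i : Fin k) (w : Fin (s i) → Fin (f i) → ℚ), Pr (h i) (P i) (shift w) ∧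
            ∑ b, (u i b : ℚ) * ∑ j, (a i j : ℚ) * w j b ≠ 0) →
      (S.card : ℝ) ≤ C * (N : ℝ) ^ (k - 1) * ∑ i, (1 + N / ((x i : ℝ) + N) ^ c) := by
  classical
  obtain ⟨c, C, hc, hC, hmain⟩ := gx (k := k) (r := r) (ν := fun i => (Fin (s i) ⊕ Fin (f i)) × Fin (f i)) (h := h)
    (∑ i, f i) e D (fun i => hF i _)
  refine ⟨c, C, hc, hC, ?_⟩
  intro P hP V _ hV h1V x N hN S hS
  refine hmain (fun i v => P i v.1 v.2) (fun i v => hP i v.1 v.2) V hV x N hN S fun t ht => ?_
  obtain ⟨hbox, hdet, a, u, u₀, β, hu₀, hβ, hrel, i₀, w, hw, hne⟩ := hS t ht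
  refine ⟨hbox, Fu s f a u u₀, Fu_deg a u u₀, Fu_coeff a u u₀ V h1V hu₀, ?_, ?_⟩
  · have h1 := Fu_eval a u u₀ (fun i => pm (h i) (P i) (t i : ℝ)) β hβ
    have h2 : (fun v : Vr s f => pm (h v.1) (P v.1) (t v.1 : ℝ) v.2.1 v.2.2) =
        pn h (fun i v => P i v.1 v.2) fun i => (t i : ℝ) := by
      funext v
      rfl
    rw [← h2, h1, hrel, sub_self, zero_mul]
  · let g : ∀ i, Matrix (Fin (s i) ⊕ Fin (f i)) (Fin (s i) ⊕ Fin (f i)) ℂ :=
      fun i => if hi : i = i₀ then shift (hi ▸ w) else 1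
    refine ⟨fun i => tr (P i) (g i), fun i => Pr_sat ?_, ?_⟩
    · by_cases hi : i = i₀
      · subst hi
        simpa only [g, dif_pos] using hw
      · simp only [g, dif_neg hi]
        exact one_mul_tr _ _
    · have h2 : (fun v : Vr s f => (g v.1 * pm (h v.1) (P v.1) (t v.1 : ℝ)) v.2.1 v.2.2) =
          pn h (fun i => tr (P i) (g i)) fun i => (t i : ℝ) := by
        funext v
        exact (tr_eval (h v.1) (P v.1) (g v.1) (t v.1 : ℝ) v.2).symm
      let δ : ∀ i, Fin (f i) → ℂ := fun i b => if hi : i = i₀ then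
        ∑ j, (a i j : ℂ) * (((hi ▸ w : Fin (s i) → Fin (f i) → ℚ) j b : ℚ) : ℂ) else 0
      have h3 := Fu_eval a u u₀ (fun i => g i * pm (h i) (P i) (t i : ℝ)) (fun i b => β i b + δ i b) ?_
      · rw [← h2, h3]
        have h4 : ∀ i, (Matrix.of fun b c => (g i * pm (h i) (P i) (t i : ℝ)) (Sum.inr b) c : Matrix (Fin (f i)) (Fin (f i)) ℂ) =
            Matrix.of fun b c => pm (h i) (P i) (t i : ℝ) (Sum.inr b) c := by
          intro i
          ext b c
          show (g i * pm (h i) (P i) (t i : ℝ)) (Sum.inr b) c = _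
          by_cases hi : i = i₀
          · subst hi
            simp only [g, dif_pos]
            exact shift_inr _ _ _ _
          · simp only [g, dif_neg hi, Matrix.one_mul]
            rfl
        rw [Finset.prod_congr rfl fun i _ => by rw [h4 i]]
        refine mul_ne_zero ?_ (Finset.prod_ne_zero_iff.2 fun i _ => hdet i)
        have h5 : ∑ i, ∑ b, (u i b : ℂ) * (β i b + δ i b) = u₀ + ∑ b, (u i₀ b : ℂ) * ∑ j, (a i₀ j : ℂ) * (w j b : ℂ) := by
          have h6 : ∑ i, ∑ b, (u i b : ℂ) * δ i b = ∑ b, (u i₀ b : ℂ) * ∑ j, (a i₀ j : ℂ) * (w j b : ℂ) := by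
            rw [Finset.sum_eq_single i₀]
            · simp only [δ, dif_pos]
            · intro i _ hi
              simp only [δ, dif_neg hi, mul_zero, Finset.sum_const_zero]
            · intro hi
              exact absurd (Finset.mem_univ _) hi
          rw [← h6, ← hrel, ← Finset.sum_add_distrib]
          refine Finset.sum_congr rfl fun i _ => ?_
          rw [← Finset.sum_add_distrib]
          refine Finset.sum_congr rfl fun b _ => ?_
          ring
        rw [h5, sub_add_cancel_left, neg_ne_zero]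
        have h7 : ((∑ b, (u i₀ b : ℚ) * ∑ j, (a i₀ j : ℚ) * w j b : ℚ) : ℂ) ≠ 0 := by exact_mod_cast hne
        push_cast at h7
        exact h7
      · intro i c
        show ∑ j, (a i j : ℂ) * (g i * pm (h i) (P i) (t i : ℝ)) (Sum.inl j) c =
          ∑ b, (β i b + δ i b) * (g i * pm (h i) (P i) (t i : ℝ)) (Sum.inr b) c
        by_cases hi : i = i₀
        · subst hi
          simp only [g, δ, dif_pos]
          simp only [shift_inl, shift_inr, mul_add, add_mul, Finset.sum_add_distrib, Finset.mul_sum, Finset.sum_mul]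
          rw [hβ i c, Finset.sum_comm]
          congr 1
          refine Finset.sum_congr rfl fun b _ => Finset.sum_congr rfl fun j _ => ?_
          ring
        · simp only [g, δ, dif_neg hi, Matrix.one_mul, add_zero]
          exact hβ i c

end core

end Q207.AJ
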