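import Pool.Agent.Y120.R.Gx

/-!
# Specialisation of normal functions
-/

set_option autoImplicit false

open Matrix Finset PowerSeries Filter

namespace Q207.AJ

open Pool.Agent.Y120.R (Fam gx p1 Sat pn E1 c1_real)

variable {ι κ : Type} {r : ℕ}

/-- the values of the functions -/
noncomputable def pm (h : Fin r → ℚ⟦X⟧) (P : ι → κ → MvPolynomial (Option (Fin r)) ℂ) (s : ℝ) : Matrix ι κ ℂ :=
  Matrix.of fun a b => MvPolynomial.aeval (p1 h s) (P a b)

noncomputable def rl (R : MvPolynomial (ι × κ) (Polynomial ℂ)) (s : ℝ) (Z : Matrix ι κ ℂ) : ℂ :=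
  MvPolynomial.eval₂ (Polynomial.evalRingHom (1 / (s : ℂ))) (fun v => Z v.1 v.2) R

def Pr [Fintype ι] (h : Fin r → ℚ⟦X⟧) (P : ι → κ → MvPolynomial (Option (Fin r)) ℂ) (g : Matrix ι ι ℂ) : Prop :=
  ∀ R : MvPolynomial (ι × κ) (Polynomial ℂ), (∀ᶠ s : ℝ in atTop, rl R s (pm h P s) = 0) →
    ∀ᶠ s : ℝ in atTop, rl R s (g * pm h P s) = 0

/-- the translate -/
noncomputable def tr [Fintype ι] (P : ι → κ → MvPolynomial (Option (Fin r)) ℂ) (g : Matrix ι ι ℂ)
    (v : ι × κ) : MvPolynomial (Option (Fin r)) ℂ := ∑ l, MvPolynomial.C (g v.1 l) * P l v.2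

theorem tr_eval [Fintype ι] (h : Fin r → ℚ⟦X⟧) (P : ι → κ → MvPolynomial (Option (Fin r)) ℂ) (g : Matrix ι ι ℂ)
    (s : ℝ) (v : ι × κ) : MvPolynomial.aeval (p1 h s) (tr P g v) = (g * pm h P s) v.1 v.2 := by
  unfold tr
  rw [map_sum, Matrix.mul_apply]
  refine Finset.sum_congr rfl fun l _ => ?_
  rw [map_mul, MvPolynomial.aeval_C]
  rfl

theorem Pr_sat [Fintype ι] {h : Fin r → ℚ⟦X⟧} {P : ι → κ → MvPolynomial (Option (Fin r)) ℂ}
    {g : Matrix ι ι ℂ} (hg : Pr h P g) : Sat h (fun v : ι × κ => P v.1 v.2) (tr P g) := by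
  intro R hR
  have h1 : ∀ᶠ s : ℝ in atTop, rl R s (pm h P s) = 0 := by
    filter_upwards [hR, eventually_gt_atTop 0] with s hs hs0
    unfold E1 at hs
    rw [c1_real h hs0] at hs
    exact hs
  filter_upwards [hg R h1, eventually_gt_atTop 0] with s hs hs0
  unfold E1
  rw [c1_real h hs0]
  have e1 : (fun v : ι × κ => MvPolynomial.aeval (p1 h s) (tr P g v)) = fun v => (g * pm h P s) v.1 v.2 := by
    funext v
    exact tr_eval h P g s v
  rw [e1]
  exact hs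

/-- At almost all points the rational vectors which annihilate the values stay annihilating after all symmetries. -/
theorem spec [Fintype ι] [Fintype κ] (e : ℕ) (h : Fin r → ℚ⟦X⟧) (hF : ∀ δ, Fam δ h) :
    ∃ c C : ℝ, 0 < c ∧ 0 ≤ C ∧ ∀ P : ι → κ → MvPolynomial (Option (Fin r)) ℂ, (∀ a b, (P a b).totalDegree ≤ e) →
      ∀ (x N : ℕ), 1 ≤ N → ∀ S : Finset ℕ,
      (∀ t ∈ S, (x < t ∧ t ≤ x + N) ∧ ∃ v : ι → ℚ, Matrix.vecMul (fun a => (v a : ℂ)) (pm h P (t : ℝ)) = 0 ∧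
        ∃ g : Matrix ι ι ℂ, Pr h P g ∧ Matrix.vecMul (fun a => (v a : ℂ)) (g * pm h P (t : ℝ)) ≠ 0) →
      (S.card : ℝ) ≤ C * (1 + N / ((x : ℝ) + N) ^ c) := by
  classical
  obtain ⟨c, C, hc, hC, hmain⟩ := gx (k := 1) (r := fun _ => r) (ν := fun _ => ι × κ) (h := fun _ => h) 1 e 1
    (fun _ => hF _)
  refine ⟨c, C, hc, hC, ?_⟩
  intro P hP x N hN S hS
  have hV : Module.finrank ℚ (Submodule.span ℚ {(1 : ℂ)}) ≤ 1 := by
    have := finrank_span_le_card (R := ℚ) ({(1 : ℂ)} : Set ℂ)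
    simpa using this
  have key := hmain (fun _ v => P v.1 v.2) (fun _ v => hP v.1 v.2) (Submodule.span ℚ {(1 : ℂ)}) hV (fun _ => x) N hN
    (S.image fun t => fun _ => t) ?_
  · rw [Finset.card_image_of_injective _ fun a b hab => congrFun hab 0] at key
    simpa using key
  intro t' ht'
  obtain ⟨t, ht, rfl⟩ := Finset.mem_image.1 ht'
  obtain ⟨hbox, v, hv, g, hg, hne⟩ := hS t ht
  refine ⟨fun _ => hbox, ?_⟩
  obtain ⟨b, hb⟩ : ∃ b, Matrix.vecMul (fun a => (v a : ℂ)) (g * pm h P (t : ℝ)) b ≠ 0 := by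
    by_contra hcon
    push Not at hcon
    exact hne (funext hcon)
  refine ⟨∑ a, MvPolynomial.C (v a : ℂ) * MvPolynomial.X ⟨0, (a, b)⟩, ?_, ?_, ?_, fun _ => tr P g, fun _ => Pr_sat hg, ?_⟩
  · refine (MvPolynomial.totalDegree_finset_sum _ _).trans (Finset.sup_le fun a _ => ?_)
    refine (MvPolynomial.totalDegree_mul _ _).trans ?_
    rw [MvPolynomial.totalDegree_C, MvPolynomial.totalDegree_X, zero_add]
  · intro m
    rw [MvPolynomial.coeff_sum]
    refine Submodule.sum_mem _ fun a _ => ?_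
    rw [MvPolynomial.coeff_C_mul, MvPolynomial.coeff_X']
    split_ifs with h1
    · rw [mul_one]
      have h2 : ((v a : ℚ) : ℂ) = (v a) • (1 : ℂ) := by
        rw [Algebra.smul_def, mul_one]; rfl
      rw [h2]
      exact Submodule.smul_mem _ _ (Submodule.subset_span rfl)
    · rw [mul_zero]
      exact Submodule.zero_mem _
  · rw [map_sum]
    simp only [map_mul, MvPolynomial.eval_C, MvPolynomial.eval_X]
    exact congrFun hv b
  · rw [map_sum]
    simp only [map_mul, MvPolynomial.eval_C, MvPolynomial.eval_X]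
    have h2 : ∀ a, pn (fun _ : Fin 1 => h) (fun _ => tr P g) (fun i => ((fun _ => t : Fin 1 → ℕ) i : ℝ)) ⟨0, (a, b)⟩ =
        (g * pm h P (t : ℝ)) a b := fun a => tr_eval h P g (t : ℝ) (a, b)
    simp only [h2]
    exact hb

end Q207.AJ
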